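import Mathlib

/-!
# Subnormal block Toeplitz operators with symbol `Φ = B Φ*`

The unit circle is parametrised by `t ∈ ℝ/ℤ`, the coordinate function being `z = exp(2 π i t)`,
which in Mathlib is `fourier 1 t`; `circleMeasure` is normalised Lebesgue measure.

For every `n ≥ 2` we exhibit a symbol `Φ` with `Φ = B Φ*`, `B(z) = z I`, such that `T_Φ` is subnormal
and even pure (so it is not normal), while `Φ` is not analytic.  For `n = 2` it is
`Φ(z) = [[0, z⁻¹], [z², 1 + z]]`.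
-/

open MeasureTheory AddCircle
open scoped ENNReal InnerProductSpace ComplexConjugate
open InnerProductSpace (rankOne)

noncomputable section

namespace Pool.Agent.Lib.MP_e84edf_an.Core

/-! ## Definitions -/

/-- `ℂ^n` with its Euclidean inner product. -/
abbrev Cn (n : ℕ) := EuclideanSpace ℂ (Fin n)

/-- `M_n(ℂ)`, the `n × n` complex matrices, seen as the operators on `ℂ^n`. -/
abbrev Mn (n : ℕ) := Cn n →L[ℂ] Cn n

/-- Normalised Lebesgue measure on the unit circle (parametrised by `t ∈ ℝ/ℤ`). -/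
abbrev circleMeasure : Measure UnitAddCircle := haarAddCircle

/-- `L²_{ℂ^n}`. -/
abbrev L2 (n : ℕ) := Lp (Cn n) 2 circleMeasure

/-- `L^∞_{M_n}`. -/
abbrev LInf (n : ℕ) := Lp (Mn n) ∞ circleMeasure

variable {n : ℕ}

lemma integrable_L2 (f : L2 n) : Integrable (f : UnitAddCircle → Cn n) circleMeasure :=
  (Lp.memLp f).integrable (by norm_num)

lemma fourierCoeff_add' (f g : L2 n) (k : ℤ) :
    fourierCoeff ((f + g : L2 n) : UnitAddCircle → Cn n) k =
      fourierCoeff (f : UnitAddCircle → Cn n) k + fourierCoeff (g : UnitAddCircle → Cn n) k := by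
  rw [fourierCoeff_congr_ae (Lp.coeFn_add f g), fourierCoeff.add (integrable_L2 f) (integrable_L2 g)]
  rfl

lemma fourierCoeff_smul' (c : ℂ) (f : L2 n) (k : ℤ) :
    fourierCoeff ((c • f : L2 n) : UnitAddCircle → Cn n) k =
      c • fourierCoeff (f : UnitAddCircle → Cn n) k := by
  rw [fourierCoeff_congr_ae (Lp.coeFn_smul c f), fourierCoeff.const_smul]

/-- The Hardy space `H²_{ℂ^n}`: the functions in `L²_{ℂ^n}` whose Fourier coefficients of negative
index all vanish. -/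
def H2 (n : ℕ) : Submodule ℂ (L2 n) where
  carrier := {f | ∀ k : ℤ, k < 0 → fourierCoeff (f : UnitAddCircle → Cn n) k = 0}
  zero_mem' := by
    intro k _
    rw [fourierCoeff_congr_ae (Lp.coeFn_zero (Cn n) 2 circleMeasure)]
    simp [fourierCoeff]
  add_mem' := by
    intro f g hf hg k hk
    rw [fourierCoeff_add', hf k hk, hg k hk, add_zero]
  smul_mem' := by
    intro c f hf k hk
    rw [fourierCoeff_smul', hf k hk, smul_zero]

lemma mem_H2 {f : L2 n} : f ∈ H2 n ↔ ∀ k : ℤ, k < 0 → fourierCoeff (f : UnitAddCircle → Cn n) k = 0 :=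
  Iff.rfl

/-- The function `z^k v` in `L²_{ℂ^n}`. -/
def E (k : ℤ) (v : Cn n) : L2 n :=
  ContinuousMap.toLp 2 circleMeasure ℂ ⟨fun t => fourier k t • v, by fun_prop⟩

lemma E_ae (k : ℤ) (v : Cn n) : (E k v : UnitAddCircle → Cn n) =ᵐ[circleMeasure] fun t => fourier k t • v :=
  ContinuousMap.coeFn_toLp _ _

lemma inner_E (k : ℤ) (v : Cn n) (f : L2 n) :
    ⟪E k v, f⟫_ℂ = ⟪v, fourierCoeff (f : UnitAddCircle → Cn n) k⟫_ℂ := by
  rw [L2.inner_def, fourierCoeff, ← integral_inner]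
  · apply integral_congr_ae
    filter_upwards [E_ae k v] with t ht
    rw [ht, inner_smul_left, inner_smul_right, fourier_neg]
  · exact (integrable_L2 f).fourier_smul _

lemma isClosed_H2 : IsClosed (H2 n : Set (L2 n)) := by
  have : (H2 n : Set (L2 n)) = ⋂ (k : ℤ) (_ : k < 0) (v : Cn n), {f | ⟪E k v, f⟫_ℂ = 0} := by
    ext f
    simp only [SetLike.mem_coe, mem_H2, Set.mem_iInter, Set.mem_ofPred_eq, inner_E]
    constructor
    · intro h k hk v
      rw [h k hk, inner_zero_right]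
    · intro h k hk
      exact inner_self_eq_zero.1 (h k hk _)
  rw [this]
  refine isClosed_iInter fun k => isClosed_iInter fun _ => isClosed_iInter fun v => ?_
  exact isClosed_eq (by fun_prop) continuous_const

instance : CompleteSpace (H2 n) := isClosed_H2.completeSpace_coe

/-- Multiplication by `Φ ∈ L^∞_{M_n}` on `L²_{ℂ^n}`: `(Φ f)(z) = Φ(z) f(z)` (see `mulOp_ae`). -/
def mulOp (Φ : LInf n) : L2 n →L[ℂ] L2 n :=
  (ContinuousLinearMap.id ℂ (Mn n)).holderL circleMeasure ∞ 2 2 Φ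

lemma mulOp_ae (Φ : LInf n) (f : L2 n) :
    (mulOp Φ f : UnitAddCircle → Cn n) =ᵐ[circleMeasure] fun t => Φ t (f t) :=
  ContinuousLinearMap.coeFn_holder _ _ _

/-- The block Toeplitz operator `T_Φ f = P(Φ f)` on `H²_{ℂ^n}`, with `P` the orthogonal projection
of `L²_{ℂ^n}` onto `H²_{ℂ^n}`. -/
def toeplitz (Φ : LInf n) : H2 n →L[ℂ] H2 n :=
  (H2 n).orthogonalProjectionOnto ∘L mulOp Φ ∘L (H2 n).subtypeL

/-- `Φ ∈ H^∞_{M_n}`: all Fourier coefficients of negative index vanish (`T_Φ` is analytic). -/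
def IsAnalytic (Φ : LInf n) : Prop :=
  ∀ k : ℤ, k < 0 → fourierCoeff (Φ : UnitAddCircle → Mn n) k = 0

/-- `T` is subnormal: there are a Hilbert space `K` containing `H` (through an isometric embedding
`J`) and a normal operator `N` on `K` that restricts to `T` on `H` (which is then invariant). -/
def IsSubnormal {H : Type} [NormedAddCommGroup H] [InnerProductSpace ℂ H] [CompleteSpace H]
    (T : H →L[ℂ] H) : Prop :=
  ∃ (K : Type) (_ : NormedAddCommGroup K) (_ : InnerProductSpace ℂ K) (_ : CompleteSpace K)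
    (J : H →ₗᵢ[ℂ] K) (N : K →L[ℂ] K), IsStarNormal N ∧ ∀ x, N (J x) = J (T x)

/-- `T` is pure: the only closed subspace that reduces `T` and on which `T` is normal is `0`. -/
def IsPure {H : Type} [NormedAddCommGroup H] [InnerProductSpace ℂ H] [CompleteSpace H]
    (T : H →L[ℂ] H) : Prop :=
  ∀ N : Submodule ℂ H, IsClosed (N : Set H) → (∀ x ∈ N, T x ∈ N) →
    (∀ x ∈ N, ContinuousLinearMap.adjoint T x ∈ N) →
    (∀ x ∈ N, ContinuousLinearMap.adjoint T (T x) = T (ContinuousLinearMap.adjoint T x)) → N = ⊥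

/-- `B` is a finite Blaschke-Potapov product (on the closed unit disc):
`B(z) = V ∏ₖ (bₖ(z) Pₖ + (I - Pₖ))`, `bₖ(z) = (z - αₖ)/(1 - conj(αₖ) z)`, `|αₖ| < 1`, with `V` unitary
and each `Pₖ` a nonzero orthogonal projection. -/
def IsFiniteBlaschkePotapov (B : ℂ → Mn n) : Prop :=
  ∃ (V : Mn n) (m : ℕ) (α : Fin m → ℂ) (P : Fin m → Mn n),
    V ∈ unitary (Mn n) ∧ (∀ k, ‖α k‖ < 1) ∧ (∀ k, IsStarProjection (P k) ∧ P k ≠ 0) ∧
    ∀ z : ℂ, ‖z‖ ≤ 1 →
      B z = V * (List.ofFn fun k => ((z - α k) / (1 - conj (α k) * z)) • P k + (1 - P k)).prod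

/-! ## Continuous symbols -/

/-- L^∞ class of a continuous symbol -/
def ofC (φ : C(UnitAddCircle, Mn n)) : LInf n := ContinuousMap.toLp ∞ circleMeasure ℂ φ

lemma ofC_ae (φ : C(UnitAddCircle, Mn n)) : (ofC φ : UnitAddCircle → Mn n) =ᵐ[circleMeasure] φ :=
  ContinuousMap.coeFn_toLp _ _

lemma mulOp_ofC_ae (φ : C(UnitAddCircle, Mn n)) (f : L2 n) :
    (mulOp (ofC φ) f : UnitAddCircle → Cn n) =ᵐ[circleMeasure] fun t => φ t (f t) := by
  filter_upwards [mulOp_ae (ofC φ) f, ofC_ae φ] with t h1 h2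
  rw [h1, h2]

lemma mulOp_E (φ : C(UnitAddCircle, Mn n)) (k : ℤ) (v : Cn n) :
    (mulOp (ofC φ) (E k v) : UnitAddCircle → Cn n) =ᵐ[circleMeasure] fun t => fourier k t • φ t v := by
  filter_upwards [mulOp_ofC_ae φ (E k v), E_ae k v] with t h1 h2
  rw [h1, h2, map_smul]

lemma inner_mulOp (φ : C(UnitAddCircle, Mn n)) (f g : L2 n) :
    ⟪f, mulOp (ofC φ) g⟫_ℂ = ⟪mulOp (ofC (star φ)) f, g⟫_ℂ := by
  rw [L2.inner_def, L2.inner_def]
  apply integral_congr_ae
  filter_upwards [mulOp_ofC_ae φ g, mulOp_ofC_ae (star φ) f] with t h1 h2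
  rw [h1, h2, ContinuousMap.star_apply, ContinuousLinearMap.star_eq_adjoint,
    ContinuousLinearMap.adjoint_inner_left]

def e (i : Fin n) : Cn n := EuclideanSpace.single i (1 : ℂ)

lemma norm_e (i : Fin n) : ‖e i‖ = 1 := by simp [e]
lemma inner_e_self (i : Fin n) : ⟪e i, e i⟫_ℂ = 1 := by simp [e]
lemma inner_e_ne {i j : Fin n} (h : i ≠ j) : ⟪e i, e j⟫_ℂ = 0 := by
  rw [e, EuclideanSpace.inner_single_left]
  simp [e, h]

/-- the symbol -/
def symb (i0 i1 : Fin n) : C(UnitAddCircle, Mn n) where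
  toFun t := (1 + fourier 1 t) • (1 - rankOne ℂ (e i0) (e i0)) + fourier 2 t • rankOne ℂ (e i1) (e i0)
    + fourier (-1) t • rankOne ℂ (e i0) (e i1)
  continuous_toFun := by fun_prop

lemma symb_apply (i0 i1 : Fin n) (t : UnitAddCircle) (x : Cn n) :
    symb i0 i1 t x = (1 + fourier 1 t) • (x - ⟪e i0, x⟫_ℂ • e i0) + (fourier 2 t * ⟪e i0, x⟫_ℂ) • e i1
     + (fourier (-1) t * ⟪e i1, x⟫_ℂ) • e i0 := by
  simp [symb, mul_smul, -fourier_apply]

lemma fourier_mul_conj (k : ℤ) (t : UnitAddCircle) : fourier k t * fourier (-k) t = 1 := by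
  rw [← fourier_add]; simp [-fourier_apply, fourier_zero]

lemma symb_eq (i0 i1 : Fin n) (t : UnitAddCircle) :
    symb i0 i1 t = (fourier 1 t : ℂ) • star (symb i0 i1 t) := by
  have h1 : (fourier 1 t : ℂ) * conj (fourier 1 t : ℂ) = 1 := by
    rw [← fourier_neg]; exact fourier_mul_conj 1 t
  have h2 : (fourier 1 t : ℂ) * conj (fourier 2 t : ℂ) = fourier (-1) t := by
    rw [← fourier_neg, ← fourier_add]; norm_num
  have h3 : (fourier 1 t : ℂ) * conj (fourier (-1) t : ℂ) = fourier 2 t := by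
    rw [← fourier_neg, ← fourier_add]; norm_num
  have : star (symb i0 i1 t) = (1 + conj (fourier 1 t : ℂ)) • (1 - rankOne ℂ (e i0) (e i0)) +
      conj (fourier 2 t : ℂ) • rankOne ℂ (e i0) (e i1)
    + conj (fourier (-1) t : ℂ) • rankOne ℂ (e i1) (e i0) := by
    have hs : ∀ (c : ℂ) (A : Mn n), star (c • A) = conj c • star A := fun c A => star_smul c A
    simp only [symb, ContinuousMap.coe_mk]
    have ha : ∀ A B : Mn n, star (A + B) = star A + star B := fun A B => star_add A B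
    have hb : ∀ A B : Mn n, star (A - B) = star A - star B := fun A B => star_sub A B
    have h1' : star (1 : Mn n) = 1 := star_one _
    rw [ha, ha, hs, hs, hs, hb, h1']
    simp only [ContinuousLinearMap.star_eq_adjoint, InnerProductSpace.adjoint_rankOne, map_add, map_one]
  rw [this, smul_add, smul_add, smul_smul, smul_smul, smul_smul, h2, h3, mul_add, h1]
  simp only [symb, ContinuousMap.coe_mk]
  rw [mul_one, add_comm (fourier 1 t : ℂ) 1]
  abel

/-- monomial symbol z^j A -/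
def mon (j : ℤ) (A : Mn n) : C(UnitAddCircle, Mn n) where
  toFun t := fourier j t • A
  continuous_toFun := by fun_prop

lemma mulOp_add (φ ψ : C(UnitAddCircle, Mn n)) (f : L2 n) :
    mulOp (ofC (φ + ψ)) f = mulOp (ofC φ) f + mulOp (ofC ψ) f := by
  simp [mulOp, ofC]

lemma mulOp_mon_E (j : ℤ) (A : Mn n) (k : ℤ) (v : Cn n) :
    mulOp (ofC (mon j A)) (E k v) = E (k + j) (A v) := by
  apply Lp.ext
  filter_upwards [mulOp_E (mon j A) k v, E_ae (k + j) (A v)] with t h1 h2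
  rw [h1, h2, fourier_add, mul_smul]
  rfl

lemma coeff_mon (j : ℤ) (A : Mn n) (f : L2 n) (k : ℤ) :
    fourierCoeff (mulOp (ofC (mon j A)) f : UnitAddCircle → Cn n) k =
      A (fourierCoeff (f : UnitAddCircle → Cn n) (k - j)) := by
  rw [fourierCoeff_congr_ae (mulOp_ofC_ae (mon j A) f), fourierCoeff, fourierCoeff,
    ← ContinuousLinearMap.integral_comp_comm _ ((integrable_L2 f).fourier_smul _)]
  apply integral_congr_ae
  filter_upwards with t
  rw [map_smul, show -(k - j) = -k + j by ring, fourier_add, mul_smul]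
  rfl

lemma symb_eq_sum (i0 i1 : Fin n) :
    symb i0 i1 = mon 0 (1 - rankOne ℂ (e i0) (e i0)) + mon 1 (1 - rankOne ℂ (e i0) (e i0)) +
      mon 2 (rankOne ℂ (e i1) (e i0)) + mon (-1) (rankOne ℂ (e i0) (e i1)) := by
  ext1 t
  have h : ∀ (a b : ℂ) (A : Mn n), (a + b) • A = a • A + b • A := fun a b A => add_smul a b A
  simp only [symb, mon, ContinuousMap.coe_mk, ContinuousMap.add_apply, fourier_zero, one_smul, h]

lemma coeff_symb (i0 i1 : Fin n) (f : L2 n) (k : ℤ) :
    fourierCoeff (mulOp (ofC (symb i0 i1)) f : UnitAddCircle → Cn n) k =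
      (1 - rankOne ℂ (e i0) (e i0)) (fourierCoeff (f : UnitAddCircle → Cn n) k) +
      (1 - rankOne ℂ (e i0) (e i0)) (fourierCoeff (f : UnitAddCircle → Cn n) (k - 1)) +
      (rankOne ℂ (e i1) (e i0)) (fourierCoeff (f : UnitAddCircle → Cn n) (k - 2)) +
      (rankOne ℂ (e i0) (e i1)) (fourierCoeff (f : UnitAddCircle → Cn n) (k + 1)) := by
  rw [symb_eq_sum, mulOp_add, mulOp_add, mulOp_add, fourierCoeff_add', fourierCoeff_add',
    fourierCoeff_add', coeff_mon, coeff_mon, coeff_mon, coeff_mon, sub_zero, sub_neg_eq_add]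

lemma coeff_E (k : ℤ) (v : Cn n) (j : ℤ) :
    fourierCoeff (E k v : UnitAddCircle → Cn n) j = if j = k then v else 0 := by
  rw [fourierCoeff_congr_ae (E_ae k v)]
  have : ∀ t : UnitAddCircle, fourier (-j) t • (fourier k t • v) = (fourier (-j) t • (fourier k t : ℂ)) • v := by
    intro t; rw [smul_smul, smul_eq_mul]
  simp only [fourierCoeff, this]
  rw [integral_smul_const]
  have h := fourierCoeff_fourier (T := (1:ℝ)) k
  have h2 := congrFun h j
  simp only [fourierCoeff] at h2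
  rw [h2]
  simp [Pi.single_apply]

lemma toeplitz_eq_of (Φ : LInf n) (h : H2 n) (y z : L2 n) (hy : y ∈ H2 n) (hz : z ∈ (H2 n)ᗮ)
    (hyz : mulOp Φ h = y + z) : (toeplitz Φ h : L2 n) = y := by
  have := Submodule.eq_starProjection_of_mem_orthogonal' hy hz hyz
  rw [Submodule.starProjection_apply] at this
  exact this

/-- the `e_{i1}` component of the constant coefficient -/
def al (i1 : Fin n) (h : L2 n) : ℂ := ⟪E 0 (e i1), h⟫_ℂ

lemma al_eq (i1 : Fin n) (h : L2 n) : al i1 h = ⟪e i1, fourierCoeff (h : UnitAddCircle → Cn n) 0⟫_ℂ :=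
  inner_E _ _ _

lemma E_neg_orth (k : ℤ) (hk : k < 0) (v : Cn n) : E k v ∈ (H2 n)ᗮ := by
  rw [Submodule.mem_orthogonal']
  intro u hu
  rw [inner_E, hu k hk, inner_zero_right]

lemma toeplitz_symb (i0 i1 : Fin n) (h : H2 n) :
    (toeplitz (ofC (symb i0 i1)) h : L2 n) =
      mulOp (ofC (symb i0 i1)) h - al i1 (h : L2 n) • E (-1) (e i0) := by
  apply toeplitz_eq_of _ _ _ (al i1 (h : L2 n) • E (-1) (e i0)) _ _ (by abel)
  · intro k hk
    have h1 := fourierCoeff_add' (mulOp (ofC (symb i0 i1)) (h : L2 n)) ((-al i1 (h : L2 n)) • E (-1) (e i0)) k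
    rw [neg_smul, ← sub_eq_add_neg] at h1
    rw [h1, ← neg_smul, fourierCoeff_smul', coeff_E, coeff_symb, h.2 k hk, h.2 (k - 1) (by omega),
      h.2 (k - 2) (by omega), map_zero, map_zero]
    by_cases hk1 : k = -1
    · subst hk1
      simp [al_eq]
    · rw [h.2 (k + 1) (by omega)]
      simp [hk1]
  · exact Submodule.smul_mem _ _ (E_neg_orth _ (by norm_num) _)

abbrev K2 (n : ℕ) := WithLp 2 (L2 n × ℂ)

/-- block diagonal operator with 1 in the corner -/
def diagOp (M : L2 n →L[ℂ] L2 n) : K2 n →L[ℂ] K2 n :=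
  (WithLp.prodContinuousLinearEquiv 2 ℂ (L2 n) ℂ).symm.toContinuousLinearMap ∘L
    (M.prodMap (ContinuousLinearMap.id ℂ ℂ)) ∘L
    (WithLp.prodContinuousLinearEquiv 2 ℂ (L2 n) ℂ).toContinuousLinearMap

lemma diagOp_apply (M : L2 n →L[ℂ] L2 n) (x : K2 n) :
    diagOp M x = WithLp.toLp 2 (M x.fst, x.snd) := rfl

lemma mulOp_mulOp_ae (φ ψ : C(UnitAddCircle, Mn n)) (f : L2 n) :
    (mulOp (ofC φ) (mulOp (ofC ψ) f) : UnitAddCircle → Cn n) =ᵐ[circleMeasure] fun t => φ t (ψ t (f t)) := by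
  filter_upwards [mulOp_ofC_ae φ (mulOp (ofC ψ) f), mulOp_ofC_ae ψ f] with t h1 h2
  rw [h1, h2]

lemma symb_comm (i0 i1 : Fin n) (t : UnitAddCircle) :
    star (symb i0 i1 t) * symb i0 i1 t = symb i0 i1 t * star (symb i0 i1 t) := by
  have h := symb_eq i0 i1 t
  generalize symb i0 i1 t = A at h
  have h2 : star A * A = star A * ((fourier 1 t : ℂ) • star A) := by rw [← h]
  have h3 : A * star A = ((fourier 1 t : ℂ) • star A) * star A := by rw [← h]
  rw [h2, h3, mul_smul_comm, smul_mul_assoc]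

lemma mulOp_comm (i0 i1 : Fin n) (f : L2 n) :
    mulOp (ofC (star (symb i0 i1))) (mulOp (ofC (symb i0 i1)) f) =
      mulOp (ofC (symb i0 i1)) (mulOp (ofC (star (symb i0 i1))) f) := by
  apply Lp.ext
  filter_upwards [mulOp_mulOp_ae (star (symb i0 i1)) (symb i0 i1) f,
    mulOp_mulOp_ae (symb i0 i1) (star (symb i0 i1)) f] with t h1 h2
  rw [h1, h2]
  exact congrArg (fun A : Mn n => A (f t)) (symb_comm i0 i1 t)

lemma adjoint_diagOp (i0 i1 : Fin n) :
    ContinuousLinearMap.adjoint (diagOp (mulOp (ofC (symb i0 i1)))) =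
      diagOp (mulOp (ofC (star (symb i0 i1)))) := by
  symm
  rw [ContinuousLinearMap.eq_adjoint_iff]
  intro x y
  rw [diagOp_apply, diagOp_apply, WithLp.prod_inner_apply, WithLp.prod_inner_apply]
  simp only [WithLp.fst, WithLp.snd]
  rw [inner_mulOp]

lemma isStarNormal_diagOp (i0 i1 : Fin n) : IsStarNormal (diagOp (mulOp (ofC (symb i0 i1)))) := by
  constructor
  rw [ContinuousLinearMap.star_eq_adjoint, adjoint_diagOp]
  rw [commute_iff_eq]
  ext x
  show WithLp.toLp 2 (mulOp (ofC (star (symb i0 i1))) (mulOp (ofC (symb i0 i1)) x.fst), x.snd) =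
    WithLp.toLp 2 (mulOp (ofC (symb i0 i1)) (mulOp (ofC (star (symb i0 i1))) x.fst), x.snd)
  rw [mulOp_comm]

lemma E_add (k : ℤ) (v w : Cn n) : E k (v + w) = E k v + E k w := by
  apply Lp.ext
  filter_upwards [E_ae k (v + w), E_ae k v, E_ae k w, Lp.coeFn_add (E k v) (E k w)] with t h1 h2 h3 h4
  rw [h1, h4, Pi.add_apply, h2, h3, smul_add]

lemma E_zero (k : ℤ) : E k (0 : Cn n) = 0 := by
  apply Lp.ext
  filter_upwards [E_ae k (0 : Cn n), Lp.coeFn_zero (Cn n) 2 circleMeasure] with t h1 h2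
  rw [h1, h2, smul_zero]; rfl

lemma M_E0 {i0 i1 : Fin n} (h01 : i0 ≠ i1) (k : ℤ) :
    mulOp (ofC (symb i0 i1)) (E k (e i0)) = E (k + 2) (e i1) := by
  rw [symb_eq_sum, mulOp_add, mulOp_add, mulOp_add, mulOp_mon_E, mulOp_mon_E, mulOp_mon_E, mulOp_mon_E]
  have h1 : (1 - rankOne ℂ (e i0) (e i0)) (e i0) = 0 := by
    simp [norm_e]
  have h2 : rankOne ℂ (e i1) (e i0) (e i0) = e i1 := by
    simp [norm_e]
  have h3 : rankOne ℂ (e i0) (e i1) (e i0) = 0 := by
    simp [inner_e_ne h01.symm]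
  rw [h1, h2, h3, E_zero, E_zero, E_zero]
  simp

lemma M_E1 {i0 i1 : Fin n} (h01 : i0 ≠ i1) (k : ℤ) :
    mulOp (ofC (symb i0 i1)) (E k (e i1)) = E k (e i1) + E (k + 1) (e i1) + E (k - 1) (e i0) := by
  rw [symb_eq_sum, mulOp_add, mulOp_add, mulOp_add, mulOp_mon_E, mulOp_mon_E, mulOp_mon_E, mulOp_mon_E]
  have h1 : (1 - rankOne ℂ (e i0) (e i0)) (e i1) = e i1 := by
    simp [inner_e_ne h01]
  have h2 : rankOne ℂ (e i1) (e i0) (e i1) = 0 := by
    simp [inner_e_ne h01]
  have h3 : rankOne ℂ (e i0) (e i1) (e i1) = e i0 := by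
    simp [norm_e]
  rw [h1, h2, h3, E_zero]
  simp [sub_eq_add_neg]

/-- the vector w -/
def wv (i0 i1 : Fin n) : L2 n := (1 / 2 : ℂ) • (E (-1) (e i0) - E 0 (e i1))

lemma inner_EE (k l : ℤ) (v w : Cn n) : ⟪E k v, E l w⟫_ℂ = if k = l then ⟪v, w⟫_ℂ else 0 := by
  rw [inner_E, coeff_E]
  split_ifs with h
  · rfl
  · simp

lemma inner_wv (i0 i1 : Fin n) (g : H2 n) : ⟪wv i0 i1, (g : L2 n)⟫_ℂ = - al i1 (g : L2 n) / 2 := by
  have h1 : ⟪E (-1) (e i0), (g : L2 n)⟫_ℂ = 0 := by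
    rw [inner_E, g.2 (-1) (by norm_num), inner_zero_right]
  have h2 : (starRingEnd ℂ) (1 / 2 : ℂ) = 1 / 2 := by
    rw [map_div₀, map_one, map_ofNat]
  rw [wv, inner_smul_left, inner_sub_left, h1, al, h2]
  ring

lemma inner_wv_self {i0 i1 : Fin n} (h01 : i0 ≠ i1) : ⟪wv i0 i1, wv i0 i1⟫_ℂ = 1 / 2 := by
  have h2 : (starRingEnd ℂ) (1 / 2 : ℂ) = 1 / 2 := by
    rw [map_div₀, map_one, map_ofNat]
  rw [wv, inner_smul_left, inner_smul_right, inner_sub_left, inner_sub_right, inner_sub_right,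
    inner_EE, inner_EE, inner_EE, inner_EE, h2]
  simp [norm_e]
  norm_num

/-- the isometric embedding -/
def Jlin (i0 i1 : Fin n) : H2 n →ₗ[ℂ] K2 n where
  toFun h := WithLp.toLp 2 ((h : L2 n) + al i1 (h : L2 n) • wv i0 i1, al i1 (h : L2 n) * (1 / Real.sqrt 2 : ℝ))
  map_add' x y := by
    have : al i1 ((x + y : H2 n) : L2 n) = al i1 (x : L2 n) + al i1 (y : L2 n) := by
      simp [al, inner_add_right]
    rw [this, add_smul, add_mul, Submodule.coe_add, ← WithLp.toLp_add, Prod.mk_add_mk]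
    congr 2
    abel
  map_smul' c x := by
    have : al i1 ((c • x : H2 n) : L2 n) = c * al i1 (x : L2 n) := by
      simp [al, inner_smul_right]
    rw [this, mul_smul, RingHom.id_apply, ← WithLp.toLp_smul, Prod.smul_mk, smul_add, smul_eq_mul, mul_assoc,
      Submodule.coe_smul]

lemma Jlin_apply (i0 i1 : Fin n) (h : H2 n) : Jlin i0 i1 h =
  WithLp.toLp 2 ((h : L2 n) + al i1 (h : L2 n) • wv i0 i1, al i1 (h : L2 n) * (1 / Real.sqrt 2 : ℝ)) := rfl

lemma inner_Jlin {i0 i1 : Fin n} (h01 : i0 ≠ i1) (f g : H2 n) :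
    ⟪Jlin i0 i1 f, Jlin i0 i1 g⟫_ℂ = ⟪f, g⟫_ℂ := by
  rw [Jlin_apply, Jlin_apply, WithLp.prod_inner_apply]
  simp only
  have h1 : ⟪(f : L2 n), wv i0 i1⟫_ℂ = - conj (al i1 (f : L2 n)) / 2 := by
    rw [← inner_conj_symm, inner_wv, map_div₀, map_neg, map_ofNat]
  have h2 : ((1 / Real.sqrt 2 : ℝ) : ℂ) * ((1 / Real.sqrt 2 : ℝ) : ℂ) = 1 / 2 := by
    rw [← Complex.ofReal_mul]
    have : (1 / Real.sqrt 2) * (1 / Real.sqrt 2) = 1 / 2 := by
      rw [div_mul_div_comm, Real.mul_self_sqrt (by norm_num)]; norm_num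
    rw [this]; norm_num
  rw [inner_add_left, inner_add_right, inner_add_right, inner_smul_left, inner_smul_left,
    inner_smul_right, inner_smul_right, inner_wv, inner_wv_self h01, h1]
  have h3 : ⟪al i1 (f : L2 n) * ((1 / Real.sqrt 2 : ℝ) : ℂ), al i1 (g : L2 n) * ((1 / Real.sqrt 2 : ℝ) : ℂ)⟫_ℂ
    = conj (al i1 (f : L2 n)) * al i1 (g : L2 n) * (1 / 2) := by
    rw [← h2]
    simp only [RCLike.inner_apply, map_mul, Complex.conj_ofReal]
    ring
  rw [h3, Submodule.coe_inner]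
  ring

def Jiso {i0 i1 : Fin n} (h01 : i0 ≠ i1) : H2 n →ₗᵢ[ℂ] K2 n :=
  (Jlin i0 i1).isometryOfInner (inner_Jlin h01)

lemma al_toeplitz {i0 i1 : Fin n} (h01 : i0 ≠ i1) (h : H2 n) :
    al i1 (toeplitz (ofC (symb i0 i1)) h : L2 n) = al i1 (h : L2 n) := by
  rw [al_eq, toeplitz_symb]
  have h1 := fourierCoeff_add' (mulOp (ofC (symb i0 i1)) (h : L2 n)) ((-al i1 (h : L2 n)) • E (-1) (e i0)) 0
  rw [neg_smul, ← sub_eq_add_neg] at h1
  rw [h1, ← neg_smul, fourierCoeff_smul', coeff_E, coeff_symb, h.2 (0 - 1) (by norm_num),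
      h.2 (0 - 2) (by norm_num), map_zero, map_zero, al_eq]
  simp [inner_e_ne h01.symm]

lemma subnormal_symb {i0 i1 : Fin n} (h01 : i0 ≠ i1) :
    IsSubnormal (toeplitz (ofC (symb i0 i1))) := by
  refine ⟨K2 n, inferInstance, inferInstance, inferInstance, Jiso h01,
    diagOp (mulOp (ofC (symb i0 i1))), isStarNormal_diagOp i0 i1, ?_⟩
  intro h
  show diagOp (mulOp (ofC (symb i0 i1))) (Jlin i0 i1 h) = Jlin i0 i1 _
  rw [Jlin_apply, Jlin_apply, diagOp_apply, al_toeplitz h01]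
  congr 2
  show mulOp (ofC (symb i0 i1)) ((h : L2 n) + al i1 (h : L2 n) • wv i0 i1) = _
  rw [toeplitz_symb, map_add, map_smul, wv, map_smul, map_sub, M_E0 h01, M_E1 h01]
  norm_num
  module

/-- multiplication by z on L2 -/
def Zop : L2 n →L[ℂ] L2 n := mulOp (ofC (mon 1 1))

lemma Zop_ae (f : L2 n) : (Zop f : UnitAddCircle → Cn n) =ᵐ[circleMeasure] fun t => fourier 1 t • f t :=
  mulOp_ofC_ae _ _

lemma coeff_Z (f : L2 n) (k : ℤ) : fourierCoeff (Zop f : UnitAddCircle → Cn n) k =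
    fourierCoeff (f : UnitAddCircle → Cn n) (k - 1) := by
  rw [Zop, coeff_mon]; rfl

lemma inner_Z (f g : L2 n) : ⟪Zop f, Zop g⟫_ℂ = ⟪f, g⟫_ℂ := by
  rw [L2.inner_def, L2.inner_def]
  apply integral_congr_ae
  filter_upwards [Zop_ae f, Zop_ae g] with t h1 h2
  rw [h1, h2, inner_smul_left, inner_smul_right, ← mul_assoc, ← fourier_neg, ← fourier_add]
  simp [-fourier_apply, fourier_zero]

lemma norm_Z (f : L2 n) : ‖Zop f‖ = ‖f‖ := by
  have h := inner_Z f f
  rw [inner_self_eq_norm_sq_to_K, inner_self_eq_norm_sq_to_K] at h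
  have h2 : ‖Zop f‖ ^ 2 = ‖f‖ ^ 2 := by exact_mod_cast h
  exact (sq_eq_sq₀ (norm_nonneg _) (norm_nonneg _)).1 h2

lemma Z_mem_H2 {f : L2 n} (hf : f ∈ H2 n) : Zop f ∈ H2 n := by
  intro k hk
  rw [coeff_Z]
  exact hf _ (by omega)

/-- Φ = Z Φ* at the operator level -/
lemma M_eq_Z (i0 i1 : Fin n) (f : L2 n) :
    mulOp (ofC (symb i0 i1)) f = Zop (mulOp (ofC (star (symb i0 i1))) f) := by
  apply Lp.ext
  filter_upwards [Zop_ae (mulOp (ofC (star (symb i0 i1))) f), mulOp_ofC_ae (symb i0 i1) f,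
    mulOp_ofC_ae (star (symb i0 i1)) f] with t h1 h2 h3
  rw [h1, h2, h3, ContinuousMap.star_apply]
  exact congrArg (fun A : Mn n => A (f t)) (symb_eq i0 i1 t)

lemma inner_toeplitz (Φ : LInf n) (f g : H2 n) : ⟪toeplitz Φ f, g⟫_ℂ = ⟪mulOp Φ (f : L2 n), (g : L2 n)⟫_ℂ := by
  show ⟪(H2 n).orthogonalProjectionOnto (mulOp Φ (f : L2 n)), g⟫_ℂ = _
  rw [Submodule.inner_orthogonalProjectionOnto_eq_of_mem_right]

lemma inner_toeplitz' (Φ : LInf n) (f g : H2 n) : ⟪f, toeplitz Φ g⟫_ℂ = ⟪(f : L2 n), mulOp Φ (g : L2 n)⟫_ℂ := by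
  rw [← inner_conj_symm f, inner_toeplitz, inner_conj_symm]

/-- T* = S* T -/
lemma inner_T_Z (i0 i1 : Fin n) (h : H2 n) (g : H2 n) :
    ⟪(toeplitz (ofC (symb i0 i1)) h : L2 n), Zop (g : L2 n)⟫_ℂ =
      ⟪ContinuousLinearMap.adjoint (toeplitz (ofC (symb i0 i1))) h, g⟫_ℂ := by
  have h1 := inner_toeplitz (ofC (symb i0 i1)) h ⟨Zop (g : L2 n), Z_mem_H2 g.2⟩
  rw [Submodule.coe_inner] at h1
  rw [h1, M_eq_Z, inner_Z, ContinuousLinearMap.adjoint_inner_left, inner_toeplitz', inner_mulOp]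

lemma eq_of_inner_norm (a b : L2 n) (r : ℝ) (hab : ⟪a, b⟫_ℂ = ((r ^ 2 : ℝ) : ℂ)) (ha : ‖a‖ = r)
    (hb : ‖b‖ = r) : a = b := by
  rw [← sub_eq_zero, ← norm_eq_zero, ← sq_eq_zero_iff, @norm_sub_sq ℂ (L2 n) _ _ _ a b, hab, ha, hb,
    RCLike.re_eq_complex_re, Complex.ofReal_re]
  ring

lemma T_eq_Z_adj (i0 i1 : Fin n) (h : H2 n)
    (hn : ‖toeplitz (ofC (symb i0 i1)) h‖ = ‖ContinuousLinearMap.adjoint (toeplitz (ofC (symb i0 i1))) h‖) :
    (toeplitz (ofC (symb i0 i1)) h : L2 n) =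
      Zop (ContinuousLinearMap.adjoint (toeplitz (ofC (symb i0 i1))) h : H2 n) := by
  apply eq_of_inner_norm _ _ ‖ContinuousLinearMap.adjoint (toeplitz (ofC (symb i0 i1))) h‖
  · rw [inner_T_Z]
    have := @inner_self_eq_norm_sq_to_K ℂ (H2 n) _ _ _
      (ContinuousLinearMap.adjoint (toeplitz (ofC (symb i0 i1))) h)
    rw [this]
    push_cast
    rfl
  · exact hn
  · exact norm_Z _

instance : Nontrivial UnitAddCircle := by
  refine ⟨⟨((1 / 2 : ℝ) : UnitAddCircle), 0, ?_⟩⟩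
  intro h
  rw [AddCircle.coe_eq_zero_iff] at h
  obtain ⟨k, hk⟩ := h
  rw [zsmul_eq_mul, mul_one] at hk
  have h2 : ((2 * k : ℤ) : ℝ) = ((1 : ℤ) : ℝ) := by
    push_cast
    rw [hk]; norm_num
  have := Int.cast_injective h2
  omega

lemma ae_ne : ∀ᵐ t : UnitAddCircle ∂circleMeasure, (1 : ℂ) + fourier 1 t ≠ 0 := by
  have : ({t : UnitAddCircle | ¬ ((1 : ℂ) + fourier 1 t ≠ 0)} : Set UnitAddCircle).Subsingleton := by
    intro s hs t ht
    simp only [Set.mem_ofPred_eq, not_not] at hs ht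
    have h : (fourier 1 s : ℂ) = fourier 1 t := by
      rw [← add_right_inj (1 : ℂ), hs, ht]
    rw [fourier_one, fourier_one] at h
    exact injective_toCircle (by norm_num) (Circle.coe_injective h)
  exact this.measure_zero _

lemma symb_injective {i0 i1 : Fin n} (h01 : i0 ≠ i1) (t : UnitAddCircle) (ht : (1 : ℂ) + fourier 1 t ≠ 0)
    (x : Cn n) (hx : symb i0 i1 t x = 0) : x = 0 := by
  rw [symb_apply] at hx
  have h1 : ⟪e i0, (0 : Cn n)⟫_ℂ = 0 := inner_zero_right _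
  rw [← hx] at h1
  have h2 : ⟪e i1, (0 : Cn n)⟫_ℂ = 0 := inner_zero_right _
  rw [← hx] at h2
  simp only [inner_add_right, inner_smul_right, inner_sub_right, inner_e_self, inner_e_ne h01,
    inner_e_ne h01.symm] at h1 h2
  have hz : ∀ k : ℤ, (fourier k t : ℂ) ≠ 0 := by
    intro k h
    have := fourier_mul_conj k t
    rw [h, zero_mul] at this
    exact zero_ne_one this
  have h3 : ⟪e i1, x⟫_ℂ = 0 := by
    have : (fourier (-1) t : ℂ) * ⟪e i1, x⟫_ℂ = 0 := by linear_combination h1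
    exact (mul_eq_zero.1 this).resolve_left (hz _)
  have h4 : ⟪e i0, x⟫_ℂ = 0 := by
    rw [h3] at h2
    have : (fourier 2 t : ℂ) * ⟪e i0, x⟫_ℂ = 0 := by linear_combination h2
    exact (mul_eq_zero.1 this).resolve_left (hz _)
  rw [h3, h4] at hx
  simp only [zero_smul, sub_zero, mul_zero, add_zero] at hx
  exact (smul_eq_zero.1 hx).resolve_left ht

lemma T_injective {i0 i1 : Fin n} (h01 : i0 ≠ i1) (h : H2 n) (hh : toeplitz (ofC (symb i0 i1)) h = 0) : h = 0 := by
  have h1 := al_toeplitz h01 h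
  rw [hh] at h1
  have h2 : al i1 (h : L2 n) = 0 := by rw [← h1]; simp [al]
  have h3 := toeplitz_symb i0 i1 h
  rw [hh, h2, zero_smul, sub_zero] at h3
  have h4 : (h : L2 n) = 0 := by
    apply Lp.ext
    filter_upwards [mulOp_ofC_ae (symb i0 i1) (h : L2 n), ae_ne, Lp.coeFn_zero (Cn n) 2 circleMeasure] with t h5 h6 h7
    rw [← h3] at h5
    rw [h7]
    apply symb_injective h01 t h6
    rw [← h5]
    exact h7
  exact Subtype.ext h4

/-- Fourier coefficients determine the L2 function -/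
lemma eq_zero_of_coeff (f : L2 n) (hf : ∀ k : ℤ, fourierCoeff (f : UnitAddCircle → Cn n) k = 0) : f = 0 := by
  have hcomp : ∀ i : Fin n, ∀ᵐ t ∂circleMeasure, (f : UnitAddCircle → Cn n) t i = 0 := by
    intro i
    have hm : MemLp (fun t => (f : UnitAddCircle → Cn n) t i) 2 circleMeasure := by
      have := (Lp.memLp f)
      exact (EuclideanSpace.proj (𝕜 := ℂ) i : Cn n →L[ℂ] ℂ).comp_memLp' this
    have h0 : hm.toLp _ = 0 := by
      apply fourierBasis.repr.injective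
      ext k
      rw [fourierBasis_repr, map_zero]
      rw [fourierCoeff_congr_ae hm.coeFn_toLp]
      have h1 : fourierCoeff (fun t => (f : UnitAddCircle → Cn n) t i) k =
        (EuclideanSpace.proj (𝕜 := ℂ) i : Cn n →L[ℂ] ℂ) (fourierCoeff (f : UnitAddCircle → Cn n) k) := by
        rw [fourierCoeff, fourierCoeff, ← ContinuousLinearMap.integral_comp_comm _ ((integrable_L2 f).fourier_smul _)]
        rfl
      rw [h1, hf k, map_zero]
      rfl
    filter_upwards [hm.coeFn_toLp, Lp.coeFn_zero ℂ 2 circleMeasure] with t h1 h2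
    rw [h0] at h1
    rw [← h1, h2]; rfl
  apply Lp.ext
  have := ae_all_iff.2 hcomp
  filter_upwards [this, Lp.coeFn_zero (Cn n) 2 circleMeasure] with t h1 h2
  rw [h2]
  ext i
  exact h1 i

/-- abstract purity criterion -/
lemma pure_abstract {H : Type} [NormedAddCommGroup H] [InnerProductSpace ℂ H] [CompleteSpace H]
    (T : H →L[ℂ] H) (S : H → H) (hSiso : Isometry S) (hinj : ∀ x, T x = 0 → x = 0)
    (hS : ∀ x, ‖T x‖ = ‖ContinuousLinearMap.adjoint T x‖ → T x = S (ContinuousLinearMap.adjoint T x))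
    (hpure : ∀ x, (∀ k : ℕ, ∃ y, x = S^[k] y) → x = 0) : IsPure T := by
  intro N hNc hT hTs hnorm
  have hnn : ∀ x ∈ N, ‖T x‖ = ‖ContinuousLinearMap.adjoint T x‖ := by
    intro x hx
    have h1 : ⟪T x, T x⟫_ℂ = ⟪ContinuousLinearMap.adjoint T x, ContinuousLinearMap.adjoint T x⟫_ℂ := by
      rw [← ContinuousLinearMap.adjoint_inner_right T x (T x), hnorm x hx,
        ContinuousLinearMap.adjoint_inner_left]
    rw [inner_self_eq_norm_sq_to_K, inner_self_eq_norm_sq_to_K] at h1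
    have h2 : ‖T x‖ ^ 2 = ‖ContinuousLinearMap.adjoint T x‖ ^ 2 := by exact_mod_cast h1
    exact (sq_eq_sq₀ (norm_nonneg _) (norm_nonneg _)).1 h2
  have hNcomplete : CompleteSpace N := hNc.completeSpace_coe
  let R : Submodule ℂ H := (N.map (T : H →ₗ[ℂ] H)).topologicalClosure
  have hRN : R ≤ N := by
    apply Submodule.topologicalClosure_minimal _ _ hNc
    rintro _ ⟨x, hx, rfl⟩
    exact hT x hx
  have hRc : IsClosed (R : Set H) := Submodule.isClosed_topologicalClosure _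
  have hRcomplete : CompleteSpace R := hRc.completeSpace_coe
  have hNR : N ≤ R := by
    intro x hx
    have hp : R.starProjection x ∈ R := Submodule.starProjection_apply_mem R x
    have hd : x - R.starProjection x ∈ N := N.sub_mem hx (hRN hp)
    have ho : x - R.starProjection x ∈ Rᗮ := Submodule.sub_starProjection_mem_orthogonal x
    have hz : ContinuousLinearMap.adjoint T (x - R.starProjection x) = 0 := by
      have h1 : ⟪ContinuousLinearMap.adjoint T (x - R.starProjection x),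
          ContinuousLinearMap.adjoint T (x - R.starProjection x)⟫_ℂ = 0 := by
        rw [ContinuousLinearMap.adjoint_inner_left]
        apply Submodule.inner_left_of_mem_orthogonal _ ho
        exact Submodule.le_topologicalClosure _ ⟨_, hTs _ hd, rfl⟩
      exact inner_self_eq_zero.1 h1
    have hz2 : T (x - R.starProjection x) = 0 := by
      rw [← norm_eq_zero, hnn _ hd, hz, norm_zero]
    have hz3 := hinj _ hz2
    rw [sub_eq_zero] at hz3
    rw [hz3]; exact hp
  have key : ∀ x ∈ N, ∃ y ∈ N, x = S y := by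
    have hW : IsClosed (S '' (N : Set H)) := hSiso.isClosedEmbedding.isClosedMap _ hNc
    have hsub : (N : Set H) ⊆ S '' (N : Set H) := by
      have h1 : (R : Set H) ⊆ S '' (N : Set H) := by
        apply closure_minimal _ hW
        rintro _ ⟨x, hx, rfl⟩
        exact ⟨ContinuousLinearMap.adjoint T x, hTs x hx, (hS x (hnn x hx)).symm⟩
      exact fun x hx => h1 (hNR hx)
    intro x hx
    obtain ⟨y, hy, hyx⟩ := hsub hx
    exact ⟨y, hy, hyx.symm⟩
  have hind : ∀ k : ℕ, ∀ x ∈ N, ∃ y ∈ N, x = S^[k] y := by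
    intro k
    induction k with
    | zero => exact fun x hx => ⟨x, hx, rfl⟩
    | succ k ih =>
      intro x hx
      obtain ⟨y, hy, hxy⟩ := ih x hx
      obtain ⟨z, hz, hyz⟩ := key y hy
      exact ⟨z, hz, by rw [hxy, hyz, Function.iterate_succ_apply]⟩
  rw [Submodule.eq_bot_iff]
  intro x hx
  apply hpure
  intro k
  obtain ⟨y, _, hy⟩ := hind k x hx
  exact ⟨y, hy⟩

/-- the shift on H2 -/
def shift (x : H2 n) : H2 n := ⟨Zop (x : L2 n), Z_mem_H2 x.2⟩

lemma isometry_shift : Isometry (shift (n := n)) := by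
  apply Isometry.of_dist_eq
  intro x y
  rw [dist_eq_norm, dist_eq_norm]
  show ‖Zop (x : L2 n) - Zop (y : L2 n)‖ = ‖(x : L2 n) - (y : L2 n)‖
  rw [← map_sub, norm_Z]

lemma coeff_shift (k : ℕ) (y : H2 n) (j : ℤ) (hj : j < k) :
    fourierCoeff ((shift^[k] y : L2 n) : UnitAddCircle → Cn n) j = 0 := by
  induction k generalizing j with
  | zero => exact y.2 j (by simpa using hj)
  | succ k ih =>
    rw [Function.iterate_succ_apply']
    show fourierCoeff (Zop (shift^[k] y : L2 n) : UnitAddCircle → Cn n) j = 0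
    rw [coeff_Z]
    apply ih
    push_cast at hj
    linarith

lemma pure_symb {i0 i1 : Fin n} (h01 : i0 ≠ i1) : IsPure (toeplitz (ofC (symb i0 i1))) := by
  apply pure_abstract _ shift isometry_shift (T_injective h01)
  · intro x hx
    exact Subtype.ext (T_eq_Z_adj i0 i1 x hx)
  · intro x hx
    apply Subtype.ext
    apply eq_zero_of_coeff
    intro k
    obtain ⟨y, hy⟩ := hx (k.toNat + 1)
    rw [hy]
    exact coeff_shift _ y k (by push_cast; omega)

lemma E_mem_H2 (k : ℤ) (hk : 0 ≤ k) (v : Cn n) : E k v ∈ H2 n := by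
  intro j hj
  rw [coeff_E, if_neg (by omega)]

lemma not_normal_of_pure (T : H2 n →L[ℂ] H2 n) (i : Fin n) (hT : IsPure T) : ¬ IsStarNormal T := by
  intro h
  have h1 := hT ⊤ isClosed_univ (fun _ _ => trivial) (fun _ _ => trivial) (fun x _ => by
    have := h.star_comm_self
    rw [commute_iff_eq, ContinuousLinearMap.star_eq_adjoint] at this
    exact congrArg (fun A : H2 n →L[ℂ] H2 n => A x) this)
  have h2 : (⟨E 0 (e i), E_mem_H2 0 le_rfl _⟩ : H2 n) ∈ (⊤ : Submodule ℂ (H2 n)) := trivial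
  rw [h1, Submodule.mem_bot] at h2
  have h3 := inner_EE (n := n) 0 0 (e i) (e i)
  rw [if_pos rfl, inner_e_self] at h3
  have h4 : E 0 (e i) = 0 := congrArg Subtype.val h2
  rw [h4, inner_zero_left] at h3
  exact zero_ne_one h3

lemma symb_not_analytic {i0 i1 : Fin n} (h01 : i0 ≠ i1) : ¬ IsAnalytic (ofC (symb i0 i1)) := by
  intro h
  have h1 := h (-1) (by norm_num)
  rw [fourierCoeff_congr_ae (ofC_ae _)] at h1
  -- apply to e i1
  have h2 : (fourierCoeff (symb i0 i1 : UnitAddCircle → Mn n) (-1)) (e i1) =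
      fourierCoeff (mulOp (ofC (symb i0 i1)) (E 0 (e i1)) : UnitAddCircle → Cn n) (-1) := by
    rw [fourierCoeff_congr_ae (mulOp_E (symb i0 i1) 0 (e i1)), fourierCoeff, fourierCoeff]
    have hint : Integrable (fun t : UnitAddCircle => fourier (-(-1)) t • symb i0 i1 t) circleMeasure := by
      apply Continuous.integrable_of_hasCompactSupport
      · fun_prop
      · exact HasCompactSupport.of_compactSpace _
    rw [ContinuousLinearMap.integral_apply hint]
    apply integral_congr_ae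
    filter_upwards with t
    rw [fourier_zero, one_smul]
    rfl
  rw [h1, M_E1 h01, fourierCoeff_add', fourierCoeff_add', coeff_E, coeff_E, coeff_E] at h2
  norm_num at h2
  have h3 := inner_e_self i0
  rw [← h2, inner_zero_left] at h3
  exact zero_ne_one h3

lemma bp_id (i : Fin n) : IsFiniteBlaschkePotapov (fun z => z • (1 : Mn n)) := by
  refine ⟨1, 1, fun _ => 0, fun _ => 1, one_mem _, fun _ => by simp, fun _ => ⟨?_, ?_⟩, ?_⟩
  · exact IsStarProjection.one _
  · intro h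
    have h1 : (1 : Mn n) (e i) = (0 : Mn n) (e i) := congrArg (fun A : Mn n => A (e i)) h
    have h2 := inner_e_self i
    simp at h1
    rw [h1, inner_zero_left] at h2
    exact zero_ne_one h2
  · intro z _
    simp

/-- **Main result.**  For every `n ≥ 2` there is a symbol `Φ ∈ L^∞_{M_n}` with `Φ = B Φ*` almost
everywhere, `B(z) = z I` (a finite Blaschke-Potapov product), such that `T_Φ` is subnormal, pure and
not normal, and `Φ` is not analytic. -/
theorem core_result (n : ℕ) (hn : 2 ≤ n) :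
    ∃ Φ : LInf n, IsSubnormal (toeplitz Φ) ∧ IsPure (toeplitz Φ) ∧ ¬ IsStarNormal (toeplitz Φ) ∧
      ¬ IsAnalytic Φ ∧ ∃ B : ℂ → Mn n, IsFiniteBlaschkePotapov B ∧ (∀ z, B z = z • 1) ∧
        ∀ᵐ t ∂circleMeasure, Φ t = B (fourier 1 t) * star (Φ t) := by
  let i0 : Fin n := ⟨0, by omega⟩
  let i1 : Fin n := ⟨1, by omega⟩
  have h01 : i0 ≠ i1 := by
    intro h
    have := congrArg Fin.val h
    simp [i0, i1] at this
  refine ⟨ofC (symb i0 i1), subnormal_symb h01, pure_symb h01, not_normal_of_pure _ i0 (pure_symb h01),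
    symb_not_analytic h01, fun z => z • 1, bp_id i0, fun _ => rfl, ?_⟩
  filter_upwards [ofC_ae (symb i0 i1)] with t ht
  rw [ht, smul_mul_assoc, one_mul]
  exact symb_eq i0 i1 t

end Pool.Agent.Lib.MP_e84edf_an.Core
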